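import Pool.Agent.H852R2.DM.Defs

namespace DM852
open RC14 RC852 Finset Equiv

namespace ZBOUND

open Classical in
theorem inj {n : ℕ} (c T : Perm (Fin n))
    (ω : {x // x ∉ c.support} → ℕ)
    (hω : ∀ d : {x // x ∉ c.support}, 1 ≤ ω d ∧
      (c * T) ^ ω d = (c * T) ^ ω d ∧ ((c * T) ^ ω d) (d : Fin n) ∉ c.support ∧
        ∀ t, 1 ≤ t → t < ω d → ((c * T) ^ t) (d : Fin n) ∈ c.support)
    (d d' : {x // x ∉ c.support}) (s s' : ℕ) (_hs : s < ω d) (hs' : s' < ω d')
    (h : ((c * T) ^ s) (d : Fin n) = ((c * T) ^ s') (d' : Fin n)) (hle : s ≤ s') :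
    d = d' ∧ s = s' := by
  obtain ⟨k, rfl⟩ := Nat.exists_eq_add_of_le hle
  rw [pow_add, Perm.mul_apply] at h
  have h1 := ((c * T) ^ s).injective h
  rcases Nat.eq_zero_or_pos k with hk | hk
  · subst hk
    refine ⟨?_, by simp⟩
    rw [pow_zero, Perm.one_apply] at h1
    exact Subtype.ext h1
  · exfalso
    have h2 := (hω d').2.2.2 k hk (by omega)
    rw [← h1] at h2
    exact d.2 h2

open Classical in
theorem inj' {n : ℕ} (c T : Perm (Fin n))
    (ω : {x // x ∉ c.support} → ℕ)
    (hω : ∀ d : {x // x ∉ c.support}, 1 ≤ ω d ∧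
      (c * T) ^ ω d = (c * T) ^ ω d ∧ ((c * T) ^ ω d) (d : Fin n) ∉ c.support ∧
        ∀ t, 1 ≤ t → t < ω d → ((c * T) ^ t) (d : Fin n) ∈ c.support)
    (d d' : {x // x ∉ c.support}) (s s' : ℕ) (hs : s < ω d) (hs' : s' < ω d')
    (h : ((c * T) ^ s) (d : Fin n) = ((c * T) ^ s') (d' : Fin n)) :
    d = d' ∧ s = s' := by
  rcases le_total s s' with hle | hle
  · exact inj c T ω hω d d' s s' hs hs' h hle
  · obtain ⟨h1, h2⟩ := inj c T ω hω d' d s' s hs' hs h.symm hle
    exact ⟨h1.symm, h2.symm⟩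

open Classical in
/-- the number of points in the excursions longer than `H` -/
theorem cnt_le {n : ℕ} (H : ℕ) (c T : Perm (Fin n))
    (ω : {x // x ∉ c.support} → ℕ)
    (hω : ∀ d : {x // x ∉ c.support}, 1 ≤ ω d ∧
      (c * T) ^ ω d = (c * T) ^ ω d ∧ ((c * T) ^ ω d) (d : Fin n) ∉ c.support ∧
        ∀ t, 1 ≤ t → t < ω d → ((c * T) ^ t) (d : Fin n) ∈ c.support) :
    ∑ d, (ω d - H) ≤ #{p : Fin n | Run H c T p} := by
  have h1 : ∑ d, (ω d - H) =
      ((Finset.univ : Finset {x // x ∉ c.support}).sigma (fun d => Finset.range (ω d - H))).card := by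
    rw [Finset.card_sigma]
    simp
  rw [h1]
  refine Finset.card_le_card_of_injOn (fun x => ((c * T) ^ x.2) (x.1 : Fin n)) ?_ ?_
  · rintro ⟨d, s⟩ hx
    have hs : s < ω d - H := by
      have := (Finset.mem_sigma.1 hx).2
      simpa using this
    simp only [Finset.coe_filter, Finset.mem_univ, true_and, Set.mem_ofPred_eq]
    intro t ht1 ht2
    have := (hω d).2.2.2 (t + s) (by omega) (by omega)
    rwa [pow_add, Perm.mul_apply] at this
  · rintro ⟨d, s⟩ hx ⟨d', s'⟩ hx' h
    have hs : s < ω d - H := by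
      have := (Finset.mem_sigma.1 hx).2
      simpa using this
    have hs' : s' < ω d' - H := by
      have := (Finset.mem_sigma.1 hx').2
      simpa using this
    obtain ⟨h3, h4⟩ := inj' c T ω hω d d' s s' (by omega) (by omega) h
    subst h3
    subst h4
    rfl

open Classical in
theorem om_le {n : ℕ} (c T : Perm (Fin n))
    (ω : {x // x ∉ c.support} → ℕ)
    (hω : ∀ d : {x // x ∉ c.support}, 1 ≤ ω d ∧
      (c * T) ^ ω d = (c * T) ^ ω d ∧ ((c * T) ^ ω d) (d : Fin n) ∉ c.support ∧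
        ∀ t, 1 ≤ t → t < ω d → ((c * T) ^ t) (d : Fin n) ∈ c.support)
    (d : {x // x ∉ c.support}) : ω d ≤ n := by
  have h1 : (Finset.range (ω d)).card ≤ (Finset.univ : Finset (Fin n)).card := by
    refine Finset.card_le_card_of_injOn (fun s => ((c * T) ^ s) (d : Fin n)) ?_ ?_
    · intro s _
      exact Finset.mem_coe.2 (Finset.mem_univ _)
    · intro s hs s' hs' h
      have hs1 : s < ω d := by simpa using hs
      have hs2 : s' < ω d := by simpa using hs'
      exact (inj' c T ω hω d d s s' hs1 hs2 h).2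
  simpa using h1

end ZBOUND

open Classical in
/-- the return times of `Θ = c T` to the complement of the support of `c` are regular if there
are few long runs -/
theorem ZBOUND {n : ℕ} (hn : 1 ≤ n) (H : ℕ) (c T : Perm (Fin n))
    (ω : {x // x ∉ c.support} → ℕ)
    (hω : ∀ d : {x // x ∉ c.support}, 1 ≤ ω d ∧
      (c * T) ^ ω d = (c * T) ^ ω d ∧ ((c * T) ^ ω d) (d : Fin n) ∉ c.support ∧
        ∀ t, 1 ≤ t → t < ω d → ((c * T) ^ t) (d : Fin n) ∈ c.support)
    (hsum : ∑ d, ω d = #{p : Fin n | ∃ t : ℕ, ((c * T) ^ t) p ∉ c.support}) :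
    (∑ d, (ω d : ℝ) ^ 2 ≤ (n : ℝ) ^ 2 * ZH H c T) ∧
      (n : ℝ) - ∑ d, (ω d : ℝ) ≤ n * ZH H c T := by
  have hn0 : (0 : ℝ) < n := by exact_mod_cast hn
  set R : ℕ := #{p : Fin n | Run H c T p} with hR
  have hcnt : ∑ d, (ω d - H) ≤ R := ZBOUND.cnt_le H c T ω hω
  have hle : ∀ d, ω d ≤ n := ZBOUND.om_le c T ω hω
  have hZ : (n : ℝ) * ZH H c T = H + 2 * R := by
    unfold ZH
    rw [← hR]
    field_simp
  have hsn : ∑ d, ω d ≤ n := by
    rw [hsum]
    calc #{p : Fin n | ∃ t : ℕ, ((c * T) ^ t) p ∉ c.support} ≤ (Finset.univ : Finset (Fin n)).card :=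
          Finset.card_le_card (Finset.subset_univ _)
      _ = n := by simp
  constructor
  · have h1 : ∑ d, (ω d) ^ 2 ≤ n * H + n * R := by
      calc ∑ d, (ω d) ^ 2 ≤ ∑ d, (ω d * H + n * (ω d - H)) := by
            apply Finset.sum_le_sum
            intro d _
            have h2 := hle d
            have h3 : ω d ≤ H + (ω d - H) := by omega
            calc (ω d) ^ 2 = ω d * ω d := by ring
              _ ≤ ω d * (H + (ω d - H)) := Nat.mul_le_mul_left _ h3
              _ = ω d * H + ω d * (ω d - H) := by ring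
              _ ≤ ω d * H + n * (ω d - H) := by
                  gcongr
        _ = (∑ d, ω d) * H + n * ∑ d, (ω d - H) := by
            rw [Finset.sum_add_distrib, ← Finset.sum_mul, ← Finset.mul_sum]
        _ ≤ n * H + n * R := by gcongr
    have h2 : ∑ d, (ω d : ℝ) ^ 2 ≤ n * H + n * R := by exact_mod_cast h1
    have h3 : (n : ℝ) ^ 2 * ZH H c T = n * (H + 2 * R) := by
      rw [← hZ]; ring
    rw [h3]
    have h4 : (0 : ℝ) ≤ n * R := by positivity
    nlinarith
  · rw [hZ]
    have h1 : (n : ℕ) ≤ (∑ d, ω d) + R := by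
      rw [hsum, hR]
      have h2 : (Finset.univ : Finset (Fin n)).card = n := by simp
      have h3 : (Finset.univ : Finset (Fin n)) ⊆
          ({p : Fin n | ∃ t : ℕ, ((c * T) ^ t) p ∉ c.support} : Finset (Fin n)) ∪
            ({p : Fin n | Run H c T p} : Finset (Fin n)) := by
        intro p _
        by_cases hp : ∃ t : ℕ, ((c * T) ^ t) p ∉ c.support
        · exact Finset.mem_union_left _ (by simpa using hp)
        · apply Finset.mem_union_right
          push Not at hp
          rw [Finset.mem_filter]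
          exact ⟨Finset.mem_univ _, fun t _ _ => hp t⟩
      have h4 := (Finset.card_le_card h3).trans (Finset.card_union_le _ _)
      rw [h2] at h4
      exact h4
    have h2 : (n : ℝ) ≤ (∑ d, (ω d : ℝ)) + R := by exact_mod_cast h1
    have h3 : (0 : ℝ) ≤ (R : ℝ) := Nat.cast_nonneg _
    have h4 : (0 : ℝ) ≤ (H : ℝ) := Nat.cast_nonneg _
    linarith

end DM852
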